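import Mathlib
import Pool.Agent.Lib.MP_b75ab8_co.Defs

namespace Pool.Agent.MP_b75ab8_co.LowerBound

open Finset Pool.Agent.MP_b75ab8_co

variable {n d k : ℕ}

/-- The slice of the family `P` at the value `v` of coordinate `l`. -/
noncomputable def slice (P : Finset (Fin (d + 1) → Finset (Fin n))) (l : Fin (d + 1)) (v : Fin n) :
    Finset (Fin d → Finset (Fin n)) :=
  (P.filter (fun B => v ∈ B l)).image (fun B => fun j => B (l.succAbove j))

lemma mem_insertNth_iff (l : Fin (d + 1)) (v : Fin n) (x : Fin d → Fin n)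
    (B : Fin (d + 1) → Finset (Fin n)) :
    (∀ i, (l.insertNth v x : Fin (d + 1) → Fin n) i ∈ B i) ↔
      v ∈ B l ∧ ∀ j, x j ∈ B (l.succAbove j) := by
  rw [Fin.forall_iff_succAbove l]
  simp

lemma slice_isBoxPartition {P : Finset (Fin (d + 1) → Finset (Fin n))} (hP : IsBoxPartition P)
    (l : Fin (d + 1)) (v : Fin n) : IsBoxPartition (slice P l v) := by
  classical
  refine ⟨?_, ?_⟩
  · intro B hB i
    unfold slice at hB
    rw [mem_image] at hB
    obtain ⟨C, hC, rfl⟩ := hB
    rw [mem_filter] at hC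
    exact hP.1 C hC.1 _
  · intro x
    obtain ⟨B, ⟨hB, hxB⟩, huniq⟩ := hP.2 (l.insertNth v x)
    rw [mem_insertNth_iff] at hxB
    refine ⟨fun j => B (l.succAbove j), ⟨?_, hxB.2⟩, ?_⟩
    · unfold slice
      exact mem_image_of_mem _ (mem_filter.2 ⟨hB, hxB.1⟩)
    · rintro C ⟨hC, hxC⟩
      unfold slice at hC
      rw [mem_image] at hC
      obtain ⟨B', hB', rfl⟩ := hC
      rw [mem_filter] at hB'
      have := huniq B' ⟨hB'.1, (mem_insertNth_iff l v x B').2 ⟨hB'.2, hxC⟩⟩
      rw [this]

lemma slice_injOn {P : Finset (Fin (d + 1) → Finset (Fin n))} (hP : IsBoxPartition P)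
    (l : Fin (d + 1)) (v : Fin n) :
    Set.InjOn (fun (B : Fin (d + 1) → Finset (Fin n)) => fun j => B (l.succAbove j))
      (P.filter (fun B => v ∈ B l) : Finset (Fin (d + 1) → Finset (Fin n))) := by
  classical
  intro B hB C hC hBC
  rw [mem_coe, mem_filter] at hB hC
  have hne : ∀ j, (B (l.succAbove j)).Nonempty := fun j => hP.1 B hB.1 _
  choose x hx using hne
  obtain ⟨D, -, huniq⟩ := hP.2 (l.insertNth v x)
  have h1 := huniq B ⟨hB.1, (mem_insertNth_iff l v x B).2 ⟨hB.2, hx⟩⟩
  have h2 := huniq C ⟨hC.1, (mem_insertNth_iff l v x C).2 ⟨hC.2, fun j => by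
    have := congrFun hBC j
    simp only at this
    rw [← this]
    exact hx j⟩⟩
  rw [h1, h2]

lemma slice_isPiercing {P : Finset (Fin (d + 1) → Finset (Fin n))} (hP : IsBoxPartition P)
    (hk : IsPiercing k P) (l : Fin (d + 1)) (v : Fin n) : IsPiercing k (slice P l v) := by
  classical
  intro i a
  have h := hk (l.succAbove i) (l.insertNth v a)
  refine h.trans ?_
  refine card_le_card_of_injOn (fun B => fun j => B (l.succAbove j)) ?_ ?_
  · intro B hB
    rw [mem_coe, mem_filter] at hB
    obtain ⟨hBP, t, ht⟩ := hB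
    have hupd : Function.update (l.insertNth v a : Fin (d + 1) → Fin n) (l.succAbove i) t
        = (l.insertNth v (Function.update a i t) : Fin (d + 1) → Fin n) := by
      funext j
      rcases Fin.eq_self_or_eq_succAbove l j with rfl | ⟨j, rfl⟩
      · simp
      · by_cases hj : j = i
        · subst hj; simp
        · have : l.succAbove j ≠ l.succAbove i := fun h => hj (Fin.succAbove_right_injective h)
          simp [Function.update_of_ne this, Function.update_of_ne hj]
    rw [hupd, mem_insertNth_iff] at ht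
    rw [mem_coe, mem_filter]
    exact ⟨mem_image_of_mem _ (mem_filter.2 ⟨hBP, ht.1⟩), t, ht.2⟩
  · refine (slice_injOn hP l v).mono ?_
    intro B hB
    rw [mem_coe, mem_filter] at hB ⊢
    obtain ⟨hBP, t, ht⟩ := hB
    refine ⟨hBP, ?_⟩
    have := ht l
    rwa [Function.update_of_ne (Fin.succAbove_ne l i).symm, Fin.insertNth_apply_same] at this

lemma card_slice_le (P : Finset (Fin (d + 1) → Finset (Fin n))) (l : Fin (d + 1)) (v : Fin n) :
    (slice P l v).card ≤ (P.filter (fun B => v ∈ B l)).card := card_image_le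

/-- Distinct boxes of a partition have disjoint sides in some coordinate. -/
lemma exists_disjoint {P : Finset (Fin d → Finset (Fin n))} (hP : IsBoxPartition P)
    {B C : Fin d → Finset (Fin n)} (hB : B ∈ P) (hC : C ∈ P) (hne : B ≠ C) :
    ∃ l, Disjoint (B l) (C l) := by
  classical
  by_contra hcon
  push Not at hcon
  have : ∀ l, ∃ v, v ∈ B l ∧ v ∈ C l := by
    intro l
    have := hcon l
    rw [Finset.not_disjoint_iff] at this
    exact this
  choose x hx using this
  obtain ⟨D, -, huniq⟩ := hP.2 x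
  exact hne ((huniq B ⟨hB, fun i => (hx i).1⟩).trans (huniq C ⟨hC, fun i => (hx i).2⟩).symm)

/-- Counting pairs: if every value of every coordinate is missed by at most `r` boxes then
`m (m - 1) ≤ 2 d r²`. -/
lemma card_pairs {P : Finset (Fin d → Finset (Fin n))} (hP : IsBoxPartition P) (hn : 0 < n)
    (r : ℕ) (hr : ∀ l v, (P.filter (fun B => v ∉ B l)).card ≤ r) :
    P.card * P.card - P.card ≤ d * (2 * (r * r)) := by
  classical
  rw [← offDiag_card]
  have hsub : P.offDiag ⊆ (univ : Finset (Fin d)).biUnion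
      (fun l => (P ×ˢ P).filter (fun q => Disjoint (q.1 l) (q.2 l))) := by
    intro q hq
    rw [mem_offDiag] at hq
    obtain ⟨l, hl⟩ := exists_disjoint hP hq.1 hq.2.1 hq.2.2
    rw [mem_biUnion]
    exact ⟨l, mem_univ _, mem_filter.2 ⟨mem_product.2 ⟨hq.1, hq.2.1⟩, hl⟩⟩
  refine (card_le_card hsub).trans (card_biUnion_le.trans ?_)
  have hone : ∀ l : Fin d,
      ((P ×ˢ P).filter (fun q => Disjoint (q.1 l) (q.2 l))).card ≤ 2 * (r * r) := by
    intro l
    set v0 : Fin n := ⟨0, hn⟩
    -- the number of partners of one box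
    have hpart : ∀ B ∈ P, (P.filter (fun C => Disjoint (B l) (C l))).card ≤ r := by
      intro B hB
      obtain ⟨v, hv⟩ := hP.1 B hB l
      refine (card_le_card ?_).trans (hr l v)
      intro C hC
      rw [mem_filter] at hC ⊢
      exact ⟨hC.1, fun h => (Finset.disjoint_left.1 hC.2 hv) h⟩
    set R := P.filter (fun B => v0 ∉ B l) with hR
    have hRr : R.card ≤ r := hr l v0
    have hcov : (P ×ˢ P).filter (fun q => Disjoint (q.1 l) (q.2 l)) ⊆
        R.biUnion (fun B => (P.filter (fun C => Disjoint (B l) (C l))).image (fun C => (B, C))) ∪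
        R.biUnion (fun B => (P.filter (fun C => Disjoint (B l) (C l))).image (fun C => (C, B))) := by
      intro q hq
      rw [mem_filter, mem_product] at hq
      obtain ⟨⟨h1, h2⟩, h3⟩ := hq
      rw [mem_union, mem_biUnion, mem_biUnion]
      by_cases hv : v0 ∈ q.1 l
      · right
        refine ⟨q.2, ?_, ?_⟩
        · rw [hR, mem_filter]
          exact ⟨h2, fun h => (Finset.disjoint_left.1 h3 hv) h⟩
        · rw [mem_image]
          exact ⟨q.1, mem_filter.2 ⟨h1, h3.symm⟩, rfl⟩
      · left
        refine ⟨q.1, mem_filter.2 ⟨h1, hv⟩, ?_⟩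
        rw [mem_image]
        exact ⟨q.2, mem_filter.2 ⟨h2, h3⟩, rfl⟩
    have hRP : ∀ B ∈ R, B ∈ P := fun B hB => (mem_filter.1 hB).1
    have hA : (R.biUnion (fun B => (P.filter (fun C => Disjoint (B l) (C l))).image
        (fun C => (B, C)))).card ≤ r * r := by
      refine (card_biUnion_le_card_mul _ _ r fun B hB =>
        card_image_le.trans (hpart B (hRP B hB))).trans (Nat.mul_le_mul_right r hRr)
    have hB : (R.biUnion (fun B => (P.filter (fun C => Disjoint (B l) (C l))).image
        (fun C => (C, B)))).card ≤ r * r := by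
      refine (card_biUnion_le_card_mul _ _ r fun B hB =>
        card_image_le.trans (hpart B (hRP B hB))).trans (Nat.mul_le_mul_right r hRr)
    calc _ ≤ _ := card_le_card hcov
      _ ≤ _ := card_union_le _ _
      _ ≤ r * r + r * r := Nat.add_le_add hA hB
      _ = 2 * (r * r) := by ring
  calc _ ≤ ∑ _l : Fin d, 2 * (r * r) := sum_le_sum fun l _ => hone l
    _ = d * (2 * (r * r)) := by simp

end Pool.Agent.MP_b75ab8_co.LowerBound
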