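import Mathlib
import Pool.Agent.Lib.MP_b75ab8_co.Defs
import Pool.Agent.Lib.MP_b75ab8_co.Construction
import Pool.Agent.Lib.MP_b75ab8_co_LowerBound.Slice

namespace Pool.Agent.MP_b75ab8_co.LowerBound

open Finset Filter Topology Pool.Agent.MP_b75ab8_co

variable {n d k : ℕ}

/-- In dimension one a `k`-piercing partition has at least `k` boxes. -/
lemma card_one (hn : 0 < n) {P : Finset (Fin 1 → Finset (Fin n))} (hk : IsPiercing k P) :
    k ≤ P.card := by
  classical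
  exact (hk 0 (fun _ => ⟨0, hn⟩)).trans (card_le_card (filter_subset _ _))

/-- One step: from dimension `d` to dimension `d + 1`. -/
lemma step (hn : 0 < n) {P : Finset (Fin (d + 1) → Finset (Fin n))} (hP : IsBoxPartition P)
    (X : ℝ) (hX : ∀ l v, X + 1 ≤ ((slice P l v).card : ℝ)) :
    X ≤ (1 - 1 / √(2 * ((d : ℝ) + 1))) * ((P.card : ℝ) - 1) := by
  classical
  set R : Fin (d + 1) × Fin n → ℕ := fun q => (P.filter (fun B => q.2 ∉ B q.1)).card with hR
  set r : ℕ := (univ : Finset (Fin (d + 1) × Fin n)).sup R with hr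
  have hle : ∀ l v, (P.filter (fun B => v ∉ B l)).card ≤ r := fun l v =>
    le_sup (f := R) (mem_univ (l, v))
  have hne : (univ : Finset (Fin (d + 1) × Fin n)).Nonempty := ⟨(0, ⟨0, hn⟩), mem_univ _⟩
  obtain ⟨q, -, hq⟩ := exists_mem_eq_sup _ hne R
  have hadd : (P.filter (fun B => q.2 ∈ B q.1)).card + r = P.card := by
    rw [hr, hq, hR]
    exact card_filter_add_card_filter_not _
  have h1 : X + 1 ≤ (P.card : ℝ) - r := by
    have h := (hX q.1 q.2).trans (by exact_mod_cast card_slice_le P q.1 q.2 :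
      ((slice P q.1 q.2).card : ℝ) ≤ ((P.filter (fun B => q.2 ∈ B q.1)).card : ℝ))
    have h' : ((P.filter (fun B => q.2 ∈ B q.1)).card : ℝ) + r = P.card := by exact_mod_cast hadd
    linarith
  -- the partition is nonempty
  have hpos : 1 ≤ P.card := by
    obtain ⟨B, ⟨hB, -⟩, -⟩ := hP.2 (fun _ => ⟨0, hn⟩)
    exact card_pos.2 ⟨B, hB⟩
  have h2 := card_pairs hP hn r hle
  have h2' : (P.card : ℝ) * P.card - P.card ≤ ((d : ℝ) + 1) * (2 * (r * r)) := by
    have h3 : P.card * P.card ≤ (d + 1) * (2 * (r * r)) + P.card := by omega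
    have h4 : ((P.card * P.card : ℕ) : ℝ) ≤ (((d + 1) * (2 * (r * r)) + P.card : ℕ) : ℝ) := by
      exact_mod_cast h3
    push_cast at h4
    linarith
  have hm : (1 : ℝ) ≤ P.card := by exact_mod_cast hpos
  have hsq : ((P.card : ℝ) - 1) ^ 2 ≤ (√(2 * ((d : ℝ) + 1)) * r) ^ 2 := by
    rw [mul_pow, Real.sq_sqrt (by positivity)]
    nlinarith
  have hroot : (P.card : ℝ) - 1 ≤ √(2 * ((d : ℝ) + 1)) * r :=
    (pow_le_pow_iff_left₀ (by linarith) (by positivity) two_ne_zero).1 hsq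
  have hs : 0 < √(2 * ((d : ℝ) + 1)) := Real.sqrt_pos.2 (by positivity)
  have h5 : 1 / √(2 * ((d : ℝ) + 1)) * ((P.card : ℝ) - 1) ≤ r := by
    rw [div_mul_eq_mul_div, one_mul, div_le_iff₀ hs]
    linarith [mul_comm (√(2 * ((d : ℝ) + 1))) (r : ℝ)]
  nlinarith

/-- The constant of the recursion. -/
noncomputable def A : ℕ → ℝ
  | 0 => 1
  | 1 => 1
  | (d + 2) => A (d + 1) / (1 - 1 / √(2 * ((d : ℝ) + 2)))

lemma one_div_sqrt_lt (d : ℕ) : 1 / √(2 * ((d : ℝ) + 2)) < 1 := by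
  rw [div_lt_one (Real.sqrt_pos.2 (by positivity))]
  rw [Real.lt_sqrt (by norm_num)]
  have : (0 : ℝ) ≤ d := Nat.cast_nonneg d
  nlinarith

lemma main (hn : 0 < n) (d : ℕ) : ∀ (P : Finset (Fin (d + 1) → Finset (Fin n))),
    IsBoxPartition P → IsPiercing k P → A (d + 1) * ((k : ℝ) - 1) + 1 ≤ (P.card : ℝ) := by
  induction d with
  | zero =>
    intro P hP hk
    have : (k : ℝ) ≤ P.card := by exact_mod_cast card_one hn hk
    simp only [A]
    linarith
  | succ d ih =>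
    intro P hP hk
    have h := step hn hP (A (d + 1) * ((k : ℝ) - 1))
      (fun l v => ih (slice P l v) (slice_isBoxPartition hP l v) (slice_isPiercing hP hk l v))
    have hcast : ((d + 1 : ℕ) : ℝ) + 1 = (d : ℝ) + 2 := by push_cast; ring
    rw [hcast] at h
    have hpos : 0 < 1 - 1 / √(2 * ((d : ℝ) + 2)) := by linarith [one_div_sqrt_lt d]
    have : A (d + 1 + 1) * ((k : ℝ) - 1) ≤ (P.card : ℝ) - 1 := by
      show A (d + 1) / (1 - 1 / √(2 * ((d : ℝ) + 2))) * ((k : ℝ) - 1) ≤ _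
      rw [div_mul_eq_mul_div, div_le_iff₀ hpos]
      linarith [mul_comm (1 - 1 / √(2 * ((d : ℝ) + 2))) ((P.card : ℝ) - 1)]
    linarith

lemma A_pos (d : ℕ) : 0 < A (d + 1) := by
  induction d with
  | zero => simp [A]
  | succ d ih =>
    show 0 < A (d + 1) / (1 - 1 / √(2 * ((d : ℝ) + 2)))
    exact div_pos ih (by linarith [one_div_sqrt_lt d])

/-- `A d ≥ exp (√(2 (d + 1)) - 2)`. -/
lemma exp_le_A (d : ℕ) : Real.exp (√(2 * ((d : ℝ) + 2)) - 2) ≤ A (d + 1) := by
  induction d with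
  | zero =>
    simp only [Nat.cast_zero, zero_add, A]
    have : √(2 * 2 : ℝ) = 2 := by
      rw [show (2 * 2 : ℝ) = 2 ^ 2 by norm_num, Real.sqrt_sq (by norm_num)]
    rw [this]; simp
  | succ d ih =>
    show _ ≤ A (d + 1) / (1 - 1 / √(2 * ((d : ℝ) + 2)))
    have hlt := one_div_sqrt_lt d
    set x := 1 / √(2 * ((d : ℝ) + 2)) with hx
    have hpos : 0 < 1 - x := by linarith
    rw [le_div_iff₀ hpos]
    have hexp : 1 - x ≤ Real.exp (-x) := by
      have := Real.add_one_le_exp (-x); linarith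
    have hs0 : 0 < √(2 * ((d : ℝ) + 2)) := Real.sqrt_pos.2 (by positivity)
    -- `√(2 (d + 3)) ≤ √(2 (d + 2)) + 1 / √(2 (d + 2))`
    have hroot : √(2 * (((d + 1 : ℕ) : ℝ) + 2)) ≤ √(2 * ((d : ℝ) + 2)) + x := by
      rw [Real.sqrt_le_left (by positivity)]
      have hxs : √(2 * ((d : ℝ) + 2)) * x = 1 := by
        rw [hx]; field_simp
      have hss : √(2 * ((d : ℝ) + 2)) ^ 2 = 2 * ((d : ℝ) + 2) := Real.sq_sqrt (by positivity)
      push_cast
      nlinarith [sq_nonneg x]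
    calc Real.exp (√(2 * (((d + 1 : ℕ) : ℝ) + 2)) - 2) * (1 - x)
        ≤ Real.exp (√(2 * ((d : ℝ) + 2)) + x - 2) * Real.exp (-x) :=
          mul_le_mul (Real.exp_le_exp.2 (by linarith)) hexp hpos.le (Real.exp_pos _).le
      _ = Real.exp (√(2 * ((d : ℝ) + 2)) - 2) := by
          rw [← Real.exp_add]; congr 1; ring
      _ ≤ A (d + 1) := ih

/-- The lower bound for a single partition. -/
theorem card_ge (hd : 0 < d) (hk : 0 < k) (hn : 0 < n) {P : Finset (Fin d → Finset (Fin n))}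
    (hP : IsBoxPartition P) (hPk : IsPiercing k P) :
    Real.exp (√(2 * ((d : ℝ) + 1)) - 2) * ((k : ℝ) - 1) + 1 ≤ (P.card : ℝ) := by
  obtain ⟨d, rfl⟩ : ∃ e, d = e + 1 := ⟨d - 1, by omega⟩
  have h := main hn d P hP hPk
  have h2 := exp_le_A d
  have hcast : ((d + 1 : ℕ) : ℝ) + 1 = (d : ℝ) + 2 := by push_cast; ring
  rw [hcast]
  have hk1 : (0 : ℝ) ≤ (k : ℝ) - 1 := by
    have : (1 : ℝ) ≤ k := by exact_mod_cast hk
    linarith
  have := mul_le_mul_of_nonneg_right h2 hk1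
  linarith

theorem le_const (hd : 0 < d) (q : ℕ → ℕ) (C : ℝ)
    (hq : ∀ k, 2 ≤ k → ∀ᶠ n in atTop, pNum n d k = q k)
    (hC : Tendsto (fun k : ℕ => (q k : ℝ) / k) atTop (𝓝 C)) :
    Real.exp (√(2 * ((d : ℝ) + 1)) - 2) ≤ C := by
  set E := Real.exp (√(2 * ((d : ℝ) + 1)) - 2) with hE
  have hbound : ∀ k, 2 ≤ k → E - (E - 1) / k ≤ (q k : ℝ) / k := by
    intro k hk
    obtain ⟨n, hn1, hn2⟩ := ((hq k hk).and (eventually_ge_atTop (2 ^ d * k))).exists
    have hk0 : 0 < k := by omega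
    have hn0 : 0 < n := lt_of_lt_of_le (by positivity) hn2
    have hne : {m | ∃ P : Finset (Fin d → Finset (Fin n)),
        IsBoxPartition P ∧ IsPiercing k P ∧ P.card = m}.Nonempty := by
      obtain ⟨P, hP, hPk, -⟩ := exists_partition (n := n) (d := d) (k := k) hk0 hn2
      exact ⟨P.card, P, hP, hPk, rfl⟩
    obtain ⟨P, hP, hPk, hcard⟩ := Nat.sInf_mem hne
    have h := card_ge hd hk0 hn0 hP hPk
    have hqk : P.card = q k := by rw [hcard, ← hn1]; rfl
    rw [hqk] at h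
    have hk' : (0 : ℝ) < k := by exact_mod_cast hk0
    rw [le_div_iff₀ hk', sub_mul, div_mul_cancel₀ _ hk'.ne']
    linarith
  have hlim : Tendsto (fun k : ℕ => E - (E - 1) / (k : ℝ)) atTop (𝓝 (E - 0)) :=
    tendsto_const_nhds.sub (tendsto_const_div_atTop_nhds_zero_nat _)
  rw [sub_zero] at hlim
  refine le_of_tendsto_of_tendsto hlim hC ?_
  filter_upwards [eventually_ge_atTop 2] with k hk
  exact hbound k hk

end Pool.Agent.MP_b75ab8_co.LowerBound
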